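import Pool.Agent.Helper60.NS.Pack

/-!
# The values of the levels are different for most instances
-/

set_option autoImplicit false

namespace Pool.Agent.Helper60.NS

variable {d N : ℕ} {A : Type} [AddCommGroup A]

/-- The values of the nodes. -/
def val (x0 : Fin N → A) (g : Fin d → Equiv.Perm (Fin N)) (I : Fin d × A → A) : ℕ → Fin N → A
  | 0, u => x0 u
  | i + 1, u => ∑ s, I (s, val x0 g I i (g s u))

/-- The values of the levels below `R` are different. -/
def CF (x0 : Fin N → A) (g : Fin d → Equiv.Perm (Fin N)) (R : ℕ) (I : Fin d × A → A) : Prop :=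
  ∀ i < R, ∀ j < R, ∀ u v, val x0 g I i u = val x0 g I j v → i = j ∧ u = v

variable {x0 : Fin N → A} {g : Fin d → Equiv.Perm (Fin N)}

theorem val_succ (I : Fin d × A → A) (i : ℕ) (u : Fin N) :
    val x0 g I (i + 1) u = ∑ s, I (s, val x0 g I i (g s u)) := rfl

theorem CF.mono {R R' : ℕ} {I : Fin d × A → A} (h : CF x0 g R I) (hR : R' ≤ R) : CF x0 g R' I :=
  fun i hi j hj => h i (by omega) j (by omega)

/-- The values up to the level `i` do not depend on the contents at the values of the level `i`. -/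
theorem val_low {i : ℕ} {I K : Fin d × A → A} (hI : CF x0 g (i + 1) I)
    (hK : ∀ c : Fin d × A, (∀ u, c.2 ≠ val x0 g I i u) → K c = I c) :
    ∀ j ≤ i, ∀ u, val x0 g K j u = val x0 g I j u := by
  intro j
  induction j with
  | zero => exact fun _ _ => rfl
  | succ j ih =>
    intro hj u
    rw [val_succ, val_succ]
    refine Finset.sum_congr rfl fun s _ => ?_
    rw [ih (by omega)]
    refine hK _ fun v hv => ?_
    have h1 := (hI j (by omega) i (by omega) _ _ hv).1
    omega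

/-- The instances in which the levels up to `i` have different values and a node of the level
`i + 1` has the value of another node of the levels up to `i + 1`. -/
theorem coll_node [Fintype A] (x0 : Fin N → A) (g : Fin d → Equiv.Perm (Fin N)) (s₀ : Fin d)
    (i : ℕ) (u : Fin N) (j : ℕ) (v : Fin N) (hj : j ≤ i + 1) (hne : ¬ (j = i + 1 ∧ v = u)) :
    Nat.card {I : Fin d × A → A // CF x0 g (i + 1) I ∧ val x0 g I (i + 1) u = val x0 g I j v} *
      Fintype.card A ≤ Nat.card (Fin d × A → A) := by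
  rw [← Nat.card_eq_fintype_card (α := A)]
  refine packing_one {I : Fin d × A → A | CF x0 g (i + 1) I ∧
    val x0 g I (i + 1) u = val x0 g I j v} (fun I => (s₀, val x0 g I i (g s₀ u))) ?_
  rintro I ⟨hI, h1⟩ I' ⟨hI', h1'⟩ K hK hK'
  have h2 : ∀ {J : Fin d × A → A}, CF x0 g (i + 1) J →
      (∀ x, x ≠ (s₀, val x0 g J i (g s₀ u)) → K x = J x) →
      ∀ j ≤ i, ∀ u, val x0 g K j u = val x0 g J j u := by
    intro J hJ hKJ
    refine val_low hJ fun c hc => hKJ c fun h => ?_
    exact hc (g s₀ u) (by rw [h])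
  have h3 : ∀ j ≤ i, ∀ u, val x0 g I j u = val x0 g I' j u := fun j hj u =>
    (h2 hI hK j hj u).symm.trans (h2 hI' hK' j hj u)
  have h4 : ∀ x, x ≠ (s₀, val x0 g I i (g s₀ u)) → I x = I' x := by
    intro x hx
    rw [← hK x hx, ← hK' x]
    rw [← h3 i le_rfl]
    exact hx
  -- the other slots of the level `i + 1` have other cells
  have h5 : ∀ (s : Fin d) (w : Fin N), (s, w) ≠ (s₀, u) →
      I (s, val x0 g I i (g s w)) = I' (s, val x0 g I' i (g s w)) := by
    intro s w hsw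
    rw [← h3 i le_rfl]
    refine h4 _ fun h => hsw ?_
    rw [Prod.mk.injEq] at h ⊢
    obtain ⟨h6, h7⟩ := h
    subst h6
    exact ⟨rfl, (g s).injective (hI i (by omega) i (by omega) _ _ h7).2⟩
  have h6 : val x0 g I j v = val x0 g I' j v := by
    rcases Nat.lt_or_eq_of_le hj with h | h
    · exact h3 j (by omega) v
    · subst h
      rw [val_succ, val_succ]
      refine Finset.sum_congr rfl fun s _ => h5 s v fun h7 => hne ⟨rfl, ?_⟩
      exact (Prod.mk.inj h7).2
  have h7 : I (s₀, val x0 g I i (g s₀ u)) = I' (s₀, val x0 g I' i (g s₀ u)) := by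
    rw [h6, ← h1', val_succ, val_succ] at h1
    rw [← Finset.add_sum_erase _ _ (Finset.mem_univ s₀),
      ← Finset.add_sum_erase (Finset.univ : Finset (Fin d)) _ (Finset.mem_univ s₀)] at h1
    have h8 : ∑ s ∈ Finset.univ.erase s₀, I (s, val x0 g I i (g s u)) =
        ∑ s ∈ Finset.univ.erase s₀, I' (s, val x0 g I' i (g s u)) := by
      refine Finset.sum_congr rfl fun s hs => h5 s u fun h9 => ?_
      exact (Finset.mem_erase.1 hs).1 (Prod.mk.inj h9).1
    rw [h8] at h1
    exact add_right_cancel h1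
  funext x
  by_cases hx : x = (s₀, val x0 g I i (g s₀ u))
  · rw [hx, h7, h3 i le_rfl]
  · exact h4 x hx

/-- A level with a collision. -/
theorem coll_exists (hx : Function.Injective x0) {R : ℕ} {I : Fin d × A → A}
    (h : ¬ CF x0 g R I) : ∃ i, i + 1 < R ∧ CF x0 g (i + 1) I ∧ ∃ u v, ∃ j ≤ i + 1,
      ¬ (j = i + 1 ∧ v = u) ∧ val x0 g I (i + 1) u = val x0 g I j v := by
  classical
  have hex : ∃ m, ¬ CF x0 g m I := ⟨R, h⟩
  obtain ⟨m, hm, hmin⟩ : ∃ m, ¬ CF x0 g m I ∧ ∀ m' < m, CF x0 g m' I :=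
    ⟨Nat.find hex, Nat.find_spec hex, fun m' hm' => not_not.1 (Nat.find_min hex hm')⟩
  have hmR : m ≤ R := by
    by_contra hc
    exact h (hmin R (by omega))
  have h0 : CF x0 g 1 I := by
    intro i hi j hj u v huv
    obtain rfl : i = 0 := by omega
    obtain rfl : j = 0 := by omega
    exact ⟨rfl, hx huv⟩
  have hm2 : 2 ≤ m := by
    by_contra hc
    exact hm (h0.mono (by omega))
  obtain ⟨i, rfl⟩ : ∃ i, m = i + 1 + 1 := ⟨m - 2, by omega⟩
  refine ⟨i, by omega, hmin _ (by omega), ?_⟩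
  have hlow := hmin (i + 1) (by omega)
  unfold CF at hm
  push Not at hm
  obtain ⟨a, ha, b, hb, u, v, huv, hab⟩ := hm
  by_cases h1 : a = i + 1
  · subst h1
    exact ⟨u, v, b, by omega, fun h2 => hab h2.1.symm h2.2.symm, huv⟩
  · by_cases h2 : b = i + 1
    · subst h2
      exact ⟨v, u, a, by omega, fun h3 => h1 h3.1, huv.symm⟩
    · exact absurd (hlow a (by omega) b (by omega) u v huv).2 (hab (hlow a (by omega) b (by omega)
        u v huv).1)

/-- P1: all but `(R N)² / |A|` of the instances have different values on the levels below `R`. -/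
theorem cf_count [Fintype A] (x0 : Fin N → A) (g : Fin d → Equiv.Perm (Fin N)) (hd : 0 < d)
    (hx : Function.Injective x0) (R : ℕ) :
    Nat.card {I : Fin d × A → A // ¬ CF x0 g R I} * Fintype.card A ≤
      (R * N) ^ 2 * Nat.card (Fin d × A → A) := by
  classical
  let s₀ : Fin d := ⟨0, hd⟩
  let Q : Type := {q : (Fin R × Fin N) × (Fin R × Fin N) // q.2.1.1 ≤ q.1.1.1 + 1 ∧
    ¬ (q.2.1.1 = q.1.1.1 + 1 ∧ q.2.2 = q.1.2)}
  have hQ : Fintype.card Q ≤ (R * N) ^ 2 := by
    refine (Fintype.card_subtype_le _).trans ?_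
    rw [Fintype.card_prod, Fintype.card_prod, Fintype.card_fin, Fintype.card_fin, sq]
  have h1 : Nat.card {I : Fin d × A → A // ¬ CF x0 g R I} ≤ ∑ q : Q,
      Nat.card {I : Fin d × A → A // CF x0 g (q.1.1.1.1 + 1) I ∧
        val x0 g I (q.1.1.1.1 + 1) q.1.1.2 = val x0 g I q.1.2.1.1 q.1.2.2} := by
    rw [← Nat.card_sigma]
    have h2 : ∀ I : {I : Fin d × A → A // ¬ CF x0 g R I}, ∃ q : Q, CF x0 g (q.1.1.1.1 + 1) I.1 ∧
        val x0 g I.1 (q.1.1.1.1 + 1) q.1.1.2 = val x0 g I.1 q.1.2.1.1 q.1.2.2 := by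
      intro I
      obtain ⟨i, hi, hcf, u, v, j, hj, hne, h3⟩ := coll_exists hx I.2
      exact ⟨⟨((⟨i, by omega⟩, u), (⟨j, by omega⟩, v)), hj, hne⟩, hcf, h3⟩
    choose f hf using h2
    refine Nat.card_le_card_of_injective (fun I => (⟨f I, ⟨I.1, hf I⟩⟩ : Σ q : Q,
      {I : Fin d × A → A // CF x0 g (q.1.1.1.1 + 1) I ∧
        val x0 g I (q.1.1.1.1 + 1) q.1.1.2 = val x0 g I q.1.2.1.1 q.1.2.2})) ?_
    intro I I' h3
    have h4 := congrArg (fun p : (Σ q : Q, {I : Fin d × A → A // CF x0 g (q.1.1.1.1 + 1) I ∧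
        val x0 g I (q.1.1.1.1 + 1) q.1.1.2 = val x0 g I q.1.2.1.1 q.1.2.2}) => p.2.1) h3
    exact Subtype.ext h4
  calc Nat.card {I : Fin d × A → A // ¬ CF x0 g R I} * Fintype.card A
      ≤ (∑ q : Q, Nat.card {I : Fin d × A → A // CF x0 g (q.1.1.1.1 + 1) I ∧
        val x0 g I (q.1.1.1.1 + 1) q.1.1.2 = val x0 g I q.1.2.1.1 q.1.2.2}) * Fintype.card A :=
        Nat.mul_le_mul_right _ h1
    _ ≤ ∑ _q : Q, Nat.card (Fin d × A → A) := by
        rw [Finset.sum_mul]
        exact Finset.sum_le_sum fun q _ => coll_node x0 g s₀ _ _ _ _ q.2.1 q.2.2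
    _ = Fintype.card Q * Nat.card (Fin d × A → A) := by
        rw [Finset.sum_const, Finset.card_univ, smul_eq_mul]
    _ ≤ (R * N) ^ 2 * Nat.card (Fin d × A → A) := Nat.mul_le_mul_right _ hQ

end Pool.Agent.Helper60.NS
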