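import Pool.Agent.Helper74.NS.Basic
import Pool.Agent.Helper60.NS.Coll

/-!
# P1 in the frame
-/

set_option autoImplicit false

namespace Pool.Agent.Helper60.NSF

open Pool.Agent.Helper74.NS

variable {N d : ℕ} {A : Type} [AddCommGroup A]

theorem val_eq (g : Fin d → Equiv.Perm (Fin N)) (x0 : Fin N → A) (I : Cell d A → A) (i : ℕ) :
    ∀ u, val g x0 I i u = Pool.Agent.Helper60.NS.val x0 g I i u := by
  induction i with
  | zero => exact fun _ => rfl
  | succ i ih =>
    intro u
    rw [val_succ, Pool.Agent.Helper60.NS.val_succ]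
    exact Finset.sum_congr rfl fun s _ => by rw [ih]

/-- P1 (helper60): few instances have two equal elements in the rows `0, ..., R`. -/
theorem card_not_CF [Fintype A] [NeZero d] (g : Fin d → Equiv.Perm (Fin N)) (x0 : Fin N → A)
    (h0 : Function.Injective x0) (R : ℕ) :
    Nat.card {I : Cell d A → A // ¬ CF g x0 R I} * Fintype.card A ≤
      ((R + 1) * N) ^ 2 * Nat.card (Cell d A → A) := by
  have h1 : ∀ I : Cell d A → A, ¬ CF g x0 R I ↔ ¬ Pool.Agent.Helper60.NS.CF x0 g (R + 1) I := by
    intro I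
    rw [not_iff_not]
    unfold CF Pool.Agent.Helper60.NS.CF
    simp only [val_eq, Nat.lt_succ_iff]
    exact ⟨fun h i hi j hj u v => h i j u v hi hj, fun h i j u v hi hj => h i hi j hj u v⟩
  rw [Nat.card_congr (Equiv.subtypeEquivRight h1)]
  exact Pool.Agent.Helper60.NS.cf_count x0 g (Nat.pos_of_ne_zero (NeZero.ne d)) h0 (R + 1)

end Pool.Agent.Helper60.NSF
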