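import Mathlib

/-!
# Packing: instances with hidden cells and codes
-/

set_option autoImplicit false

namespace Pool.Agent.Helper60.NS

/-- The instances which agree with `I` outside `S`. -/
def Sib {C A : Type} (I : C → A) (S : Set C) : Type := {K : C → A // ∀ c, c ∉ S → K c = I c}

theorem card_sib {C A : Type} [Finite C] [Finite A] (I : C → A) (S : Set C) :
    Nat.card A ^ S.ncard ≤ Nat.card (Sib I S) := by
  classical
  have h1 : Nat.card (S → A) = Nat.card A ^ S.ncard := by
    rw [Nat.card_fun, Nat.card_coe_set_eq]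
  rw [← h1]
  have : Finite (Sib I S) := by
    unfold Sib
    infer_instance
  refine Nat.card_le_card_of_injective (fun f : S → A =>
    (⟨fun c => if h : c ∈ S then f ⟨c, h⟩ else I c, fun c hc => dif_neg hc⟩ : Sib I S)) ?_
  intro f g hfg
  ext ⟨c, hc⟩
  have h2 := congrFun (congrArg Subtype.val hfg) c
  simpa [hc] using h2

/-- Every instance of `P` has a code and `m` hidden cells, and is determined by the code together
with any instance which agrees with it outside the hidden cells. -/
theorem packing {C A κ : Type} [Finite C] [Finite A] [Finite κ] (P : Set (C → A))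
    (S : (C → A) → Set C) (m : ℕ) (spec : (C → A) → κ → Prop) (hspec : ∀ I ∈ P, ∃ c, spec I c)
    (hS : ∀ I ∈ P, (S I).ncard = m)
    (hinj : ∀ I ∈ P, ∀ I' ∈ P, ∀ (c : κ) (K : C → A), spec I c → spec I' c →
      (∀ x, x ∉ S I → K x = I x) → (∀ x, x ∉ S I' → K x = I' x) → I = I') :
    Nat.card P * Nat.card A ^ m ≤ Nat.card κ * Nat.card (C → A) := by
  classical
  have : ∀ I : P, Finite (Sib I.1 (S I.1)) := by
    intro I
    unfold Sib
    infer_instance
  have : Fintype P := Fintype.ofFinite P
  have h1 : Nat.card P * Nat.card A ^ m ≤ Nat.card (Σ I : P, Sib I.1 (S I.1)) := by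
    rw [Nat.card_sigma]
    calc Nat.card P * Nat.card A ^ m = ∑ I : P, Nat.card A ^ m := by
          rw [Finset.sum_const, Finset.card_univ, smul_eq_mul, Nat.card_eq_fintype_card]
      _ ≤ ∑ I : P, Nat.card (Sib I.1 (S I.1)) := by
          refine Finset.sum_le_sum fun I _ => ?_
          have h2 := card_sib I.1 (S I.1)
          rwa [hS I.1 I.2] at h2
  refine h1.trans ?_
  rw [← Nat.card_prod]
  choose code hcode using fun I : P => hspec I.1 I.2
  refine Nat.card_le_card_of_injective
    (fun x : (Σ I : P, Sib I.1 (S I.1)) => (code x.1, x.2.1)) ?_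
  rintro ⟨I, K⟩ ⟨I', K'⟩ hxy
  have h4 : code I = code I' := congrArg Prod.fst hxy
  have h5 : K.1 = K'.1 := congrArg Prod.snd hxy
  have h7 : I = I' := by
    apply Subtype.ext
    refine hinj I.1 I.2 I'.1 I'.2 (code I) K.1 (hcode I) ?_ K.2 ?_
    · rw [h4]
      exact hcode I'
    · rw [h5]
      exact K'.2
  subst h7
  have h8 : K = K' := Subtype.ext h5
  rw [h8]

/-- One hidden cell, no code. -/
theorem packing_one {C A : Type} [Finite C] [Finite A] (P : Set (C → A)) (c : (C → A) → C)
    (hinj : ∀ I ∈ P, ∀ I' ∈ P, ∀ K : C → A, (∀ x, x ≠ c I → K x = I x) →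
      (∀ x, x ≠ c I' → K x = I' x) → I = I') :
    Nat.card P * Nat.card A ≤ Nat.card (C → A) := by
  have h := packing (κ := Unit) P (fun I => {c I}) 1 (fun _ _ => True) (fun _ _ => ⟨(), trivial⟩)
    (fun _ _ => Set.ncard_singleton _) (fun I hI I' hI' _ K _ _ h h' => hinj I hI I' hI' K h h')
  simpa using h

end Pool.Agent.Helper60.NS
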